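import Pool.Agent.H.MP_216555_lc.l.Res

/-!
# Matchings in m-schemes: valencies which are small or divisible by `g`
-/

namespace Pool.Agent.Results.MP_216555_lc.ResidueMatchings

open MS216

/-- For every `ε > 0` there is `B₀` such that the following holds. Let `X` be an `m`-scheme in which no color is
mapped to itself by a 3-cycle, `P` a color of level `s + 1` (the color of `z`), `g` and `B ≥ B₀` natural
numbers such that the valency of `P` is not congruent to `1` modulo `g` and every color of level `s + 2` whose
projections `π_{s + 2}` and `π_{s + 1}` are both `P` (the color of `w`) has a valency which is at most `B`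
or divisible by `g`. If `s + 1 + (4 + ε) log B / log log log B ≤ m`, then `X` contains a matching. -/
theorem result (ε : ℝ) (hε : 0 < ε) : ∃ B₀ : ℕ, ∀ (V : Type) [Fintype V] (m : ℕ)
    (X : MScheme V m), X.NoThreeCycle → ∀ (s : ℕ) (z : Fin (s + 1) ↪ V) (g B : ℕ),
      ¬ X.lastVal z ≡ 1 [MOD g] →
      (∀ w : Fin (s + 2) ↪ V, (X.rel (s + 1)) z (del (Fin.last (s + 1)) w) →
        (X.rel (s + 1)) z (del (Fin.last s).castSucc w) →
        X.lastVal w ≤ B ∨ g ∣ X.lastVal w) →
      B₀ ≤ B → s + 1 + (4 + ε) * Real.log B / Real.log (Real.log (Real.log B)) ≤ m →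
      X.HasMatching :=
  mainRes ε hε

end Pool.Agent.Results.MP_216555_lc.ResidueMatchings
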