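import Pool.Agent.H.MP_216555_lc.l.Loc

/-!
# Matchings in m-schemes
-/

namespace Pool.Agent.Results.MP_216555_lc.SublogMatchings

open MS216

/-- For every `ε > 0` there is `d₀` such that every `m`-scheme (homogeneous or not) in which no
color is mapped to itself by a 3-cycle contains a matching, if for some color (of level `s + 1`,
the color of `z`) and some place `i` the number `d` of the tuples of the color over each tuple of
its projection satisfies `d ≥ d₀` and `s + (4 + ε) log d / log log log d ≤ m`. The case `s = 0` is
about homogeneous schemes, `d = |V|`. -/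
theorem result (ε : ℝ) (hε : 0 < ε) : ∃ d₀ : ℕ, ∀ (V : Type) [Fintype V] (m : ℕ)
    (X : MScheme V m), X.NoThreeCycle → ∀ (s : ℕ) (i : Fin (s + 1)) (z : Fin (s + 1) ↪ V) (d : ℕ),
      d = Nat.card {x : Fin (s + 1) ↪ V // del i x = del i z ∧ (X.rel (s + 1)) z x} →
      d₀ ≤ d → s + (4 + ε) * Real.log d / Real.log (Real.log (Real.log d)) ≤ m →
      X.HasMatching :=
  mainLoc ε hε

end Pool.Agent.Results.MP_216555_lc.SublogMatchings
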