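import Pool.Agent.H.MP_216555_lc.d.DerT

/-!
# Colors of small valency in m-schemes, m constant
-/

namespace Pool.Agent.Results.MP_216555_lc.ThinColors

open MS216

/-- Let `X` be an `m`-scheme (homogeneous or not) in which no color is mapped to itself by a 3-cycle, and let the color of
`z` (of level `t + 1`) have exactly `d` tuples over each tuple of its projection which omits the place `i₀`. If `d` is at
least `K ^ K ^ (721 K ^ 8)` and `m ≥ t + 6 K ^ 8 + 6`, there are a color `P` of a level `t + s + 2`, `s ≤ 6 K ^ 8`, and places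
`i < j` with `π_i(P) = π_j(P)` and `|P| / |π_i(P)| < d / K ^ (s + 1)`. The case `t = 0` is about homogeneous schemes,
`d = |V|`. -/
theorem result (K : ℕ) (hK : 2 ≤ K) (V : Type) [Fintype V] (m : ℕ) (X : MScheme V m)
    (h3 : X.NoThreeCycle) (t : ℕ) (i₀ : Fin (t + 1)) (z : Fin (t + 1) ↪ V) (d : ℕ)
    (hd : d = Nat.card {x : Fin (t + 1) ↪ V // del i₀ x = del i₀ z ∧ (X.rel (t + 1)) z x})
    (hn : K ^ K ^ (721 * K ^ 8) ≤ d) (hm : t + 6 * K ^ 8 + 6 ≤ m) :
    ∃ s, s ≤ 6 * K ^ 8 ∧ ∃ (x : Fin (t + s + 2) ↪ V) (i j : Fin (t + s + 2)), i < j ∧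
      del i '' X.color x = del j '' X.color x ∧
      K ^ (s + 1) * (X.color x).ncard < d * (del i '' X.color x).ncard :=
  thinLoc K hK V m X h3 t i₀ z d hd hn hm

end Pool.Agent.Results.MP_216555_lc.ThinColors
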